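import Pool.Agent.U474.WC.Defs
import Pool.Agent.Y235.JC.P6

/-! From the equations of `Defs.lean` to the data of the library. -/

set_option autoImplicit false

open MvPolynomial

namespace Pool.Agent.U474.WC

variable {r : ℕ}

theorem map_det_of {A : Type} [CommRing A] (f : A →+* ℂ) (M : Fin r → Fin r → A) :
    f (Matrix.of M).det = (Matrix.of fun i j => f (M i j)).det := by
  rw [RingHom.map_det]
  rfl

/-- the data of the library -/
noncomputable def CurveFamily.toCI (D : CurveFamily r) : Pool.Agent.Y235.JC.CI ℂ r where
  w := D.w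
  hw := D.w_pos
  d := D.d
  Φ := D.Φ
  Φ0 := D.lead
  c := D.c
  hc := D.c_ne
  hΦ0 := D.homogeneous
  htop i := by
    intro m hm
    have := D.lower i m hm
    omega
  h2 j := by
    refine pow_mem_span _ _ fun p hp => ?_
    have h0 : p = 0 := by
      refine D.finite p ?_ fun i => ?_
      · simpa using hp _ ⟨none, rfl⟩
      · simpa using hp _ ⟨some i, rfl⟩
    rw [h0]
    simp
  h3 := by
    refine pow_mem_span _ _ fun p hp => ?_
    have h0 : p = 0 := by
      refine D.unramified p (fun i => ?_) ?_
      · simpa using hp _ ⟨some i, rfl⟩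
      · have h1 := hp _ ⟨none, rfl⟩
        simp only [Option.elim_none] at h1
        rw [map_det_of] at h1
        exact h1
    rw [h0]
    simp
  h4 := by
    classical
    obtain ⟨S, hS⟩ := D.smooth
    have hs : (∏ u ∈ S, (Polynomial.X - Polynomial.C u) : Polynomial ℂ) ≠ 0 :=
      Finset.prod_ne_zero_iff.2 fun u _ => Polynomial.X_sub_C_ne_zero u
    obtain ⟨n, hn⟩ := pow_mem_span_poly
      (Set.range D.Φ ∪ Set.range fun e : Fin r → Option (Fin r) =>
        Matrix.det (Matrix.of fun i j => pderiv (e j) (D.Φ i)))
      (∏ u ∈ S, (Polynomial.X - Polynomial.C u)) fun u p hp => by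
        by_contra hne
        have hu : u ∉ S := by
          intro hu
          apply hne
          rw [Polynomial.eval_prod]
          exact Finset.prod_eq_zero hu (by simp)
        obtain ⟨e, he⟩ := hS u hu p fun i => hp _ (Or.inl ⟨i, rfl⟩)
        apply he
        have h1 := hp _ (Or.inr ⟨e, rfl⟩)
        rw [map_det_of] at h1
        exact h1
    exact ⟨_, pow_ne_zero n hs, hn⟩

end Pool.Agent.U474.WC
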