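import Pool.Agent.U474.WC.Null

/-! Equations between a parameter `U` and the coordinates `V`, `Z_1, …, Z_r` which define a
family of smooth affine curves, nondegenerate at infinity for some weights of `V` and the `Z_j`. -/

set_option autoImplicit false

open MvPolynomial

namespace Pool.Agent.U474.WC

/-- `r` equations between `U`, `V` and `Z_1, …, Z_r`. The variable `V` is `none`, the variable `Z_j` is
`some j`; the coefficients are polynomials in `U`. -/
structure CurveFamily (r : ℕ) where
  /-- the weights of `V` and `Z_j` -/
  w : Option (Fin r) → ℕ
  /-- the left-hand sides of the equations -/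
  Φ : Fin r → MvPolynomial (Option (Fin r)) (Polynomial ℂ)
  /-- their degrees with respect to the weights -/
  d : Fin r → ℕ
  /-- their leading forms are `c i * lead i`, where `lead i` has constant coefficients -/
  lead : Fin r → MvPolynomial (Option (Fin r)) ℂ
  /-- see `lead` -/
  c : Fin r → Polynomial ℂ
  w_pos : ∀ o, 0 < w o
  c_ne : ∀ i, c i ≠ 0
  homogeneous : ∀ i, IsWeightedHomogeneous w (lead i) (d i)
  lower : ∀ i, ∀ m ∈ (Φ i - C (c i) * map Polynomial.C (lead i)).support, Finsupp.weight w m < d i
  /-- the leading forms have no common zero with `V = 0` other than the origin -/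
  finite : ∀ p : Option (Fin r) → ℂ, p none = 0 → (∀ i, eval p (lead i) = 0) → p = 0
  /-- at the common zeros of the leading forms other than the origin the derivatives with respect to the
  `Z_j` are independent -/
  unramified : ∀ p : Option (Fin r) → ℂ, (∀ i, eval p (lead i) = 0) →
    (Matrix.of fun i j => eval p (pderiv (some j) (lead i))).det = 0 → p = 0
  /-- for all but finitely many `u` the curve `U = u`, `Φ i = 0` is smooth: at each of its points some
  `r` partial derivatives with respect to the variables `V`, `Z_j` are independent -/
  smooth : ∃ S : Finset ℂ, ∀ u ∉ S, ∀ p : Option (Fin r) → ℂ, (∀ i, At u p (Φ i) = 0) →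
    ∃ e : Fin r → Option (Fin r), (Matrix.of fun i j => At u p (pderiv (e j) (Φ i))).det ≠ 0

end Pool.Agent.U474.WC
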