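import Mathlib

/-!
The Nullstellensatz for polynomials with coefficients in `ℂ` and in `ℂ[U]`, in the form in which it is
used for the equations of `Pool.Agent.U474.WC`.
-/

set_option autoImplicit false

open MvPolynomial

namespace Pool.Agent.U474.WC

/-- a polynomial vanishing at all common zeros of `S` has a power in the ideal of `S` -/
theorem pow_mem_span {σ : Type} [Finite σ] (S : Set (MvPolynomial σ ℂ)) (P : MvPolynomial σ ℂ)
    (h : ∀ p : σ → ℂ, (∀ f ∈ S, eval p f = 0) → eval p P = 0) : ∃ n : ℕ, P ^ n ∈ Ideal.span S := by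
  have h1 : P ∈ (Ideal.span S).radical := by
    rw [← vanishingIdeal_zeroLocus_eq_radical (k := ℂ) (K := ℂ) (Ideal.span S), mem_vanishingIdeal_iff]
    intro p hp
    have h0 : ∀ g : MvPolynomial σ ℂ, aeval p g = eval p g := fun g => by
      rw [MvPolynomial.aeval_def, MvPolynomial.eval₂_eq_eval_map]
      simp
    rw [h0]
    exact h p fun f hf => by
      rw [← h0]
      exact hp f (Ideal.subset_span hf)
  exact h1

/-- The value of a polynomial with coefficients in `ℂ[U]` at `U = u` and the point `p`. -/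
noncomputable def At {τ : Type} (u : ℂ) (p : τ → ℂ) : MvPolynomial τ (Polynomial ℂ) →+* ℂ :=
  eval₂Hom (Polynomial.evalRingHom u) p

theorem At_equiv {τ : Type} (q : Option τ → ℂ) (g : MvPolynomial (Option τ) ℂ) :
    At (q none) (fun t => q (some t)) (optionEquivRight ℂ τ g) = eval q g := by
  have h : (At (q none) (fun t => q (some t))).comp
      (optionEquivRight ℂ τ).toRingEquiv.toRingHom = eval q := by
    apply MvPolynomial.ringHom_ext
    · intro c
      simp [At]
    · intro o
      cases o with
      | none => simp [At]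
      | some t => simp [At]
  exact congrArg (fun f => f g) h

/-- the same for coefficients in `ℂ[U]` -/
theorem pow_mem_span_poly {τ : Type} [Finite τ] (S : Set (MvPolynomial τ (Polynomial ℂ)))
    (s : Polynomial ℂ)
    (h : ∀ (u : ℂ) (p : τ → ℂ), (∀ f ∈ S, At u p f = 0) → s.eval u = 0) :
    ∃ n : ℕ, (C (s ^ n) : MvPolynomial τ (Polynomial ℂ)) ∈ Ideal.span S := by
  let e := optionEquivRight ℂ τ
  obtain ⟨n, hn⟩ := pow_mem_span (e.symm '' S) (e.symm (C s)) fun q hq => by
    have h1 : At (q none) (fun t => q (some t)) (C s : MvPolynomial τ (Polynomial ℂ)) = 0 := by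
      have h2 := h (q none) (fun t => q (some t)) fun f hf => by
        have h3 := hq (e.symm f) ⟨f, hf, rfl⟩
        rw [← At_equiv] at h3
        change At _ _ (e (e.symm f)) = 0 at h3
        rwa [AlgEquiv.apply_symm_apply] at h3
      simpa [At] using h2
    rw [← At_equiv]
    change At _ _ (e (e.symm (C s))) = 0
    rw [AlgEquiv.apply_symm_apply]
    exact h1
  refine ⟨n, ?_⟩
  let e' : MvPolynomial (Option τ) ℂ →+* MvPolynomial τ (Polynomial ℂ) := e.toRingEquiv.toRingHom
  have h0 : ∀ x, e' (e.symm x) = x := fun x => AlgEquiv.apply_symm_apply e x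
  have h1 : e' ((e.symm (C s)) ^ n) ∈ Ideal.map e' (Ideal.span (e.symm '' S)) :=
    Ideal.mem_map_of_mem e' hn
  rw [Ideal.map_span, map_pow, h0, ← C_pow] at h1
  have h2 : e' '' (e.symm '' S) = S := by
    ext x
    constructor
    · rintro ⟨_, ⟨y, hy, rfl⟩, rfl⟩
      rwa [h0]
    · intro hx
      exact ⟨_, ⟨x, hx, rfl⟩, h0 x⟩
  rw [h2] at h1
  exact h1

end Pool.Agent.U474.WC
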